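import Mathlib

/-!
# One coordinate of the point `Z`: two samples with the same cells and heights
-/

set_option autoImplicit false

namespace Pool.Agent.Y657.HK3

/-- the factor `n / max 1 |x - y|` -/
noncomputable def fac (n : ℕ) (x y : ℝ) : ℝ := (n : ℝ) / max 1 |x - y|

section

variable {n : ℕ}

lemma nat_lt {i : ℕ} (hi : i < n) : (i : ℝ) < n := by exact_mod_cast hi

lemma abs_lt_n {i j : ℕ} (hi : i < n) (hj : j < n) : |(i : ℝ) - j| ≤ n := by
  have hi' := nat_lt hi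
  have hj' := nat_lt hj
  have hi0 : (0 : ℝ) ≤ i := Nat.cast_nonneg _
  have hj0 : (0 : ℝ) ≤ j := Nat.cast_nonneg _
  rw [abs_le]
  constructor <;> linarith

lemma one_le_n {i : ℕ} (hi : i < n) : (1 : ℝ) ≤ n := by exact_mod_cast (by omega : 1 ≤ n)

lemma fac_one_le {i j : ℕ} (hi : i < n) (hj : j < n) : 1 ≤ fac n i j := by
  unfold fac
  rw [le_div_iff₀ (lt_of_lt_of_le one_pos (le_max_left _ _)), one_mul]
  exact max_le (one_le_n hi) (abs_lt_n hi hj)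

lemma fac_le (x y : ℝ) : fac n x y ≤ n := by
  unfold fac
  exact div_le_self (Nat.cast_nonneg n) (le_max_left _ _)

lemma fac_self (x : ℝ) : fac n x x = n := by
  unfold fac
  rw [sub_self, abs_zero, max_eq_left zero_le_one, div_one]

lemma one_le_abs {i j : ℕ} (h : i ≠ j) : (1 : ℝ) ≤ |(i : ℝ) - j| := by
  have h1 : (1 : ℤ) ≤ |(i : ℤ) - j| := by
    apply Int.one_le_abs
    intro h2
    apply h
    have : (i : ℤ) = j := by linarith
    exact_mod_cast this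
  exact_mod_cast h1

lemma fac_ne {i j : ℕ} (h : i ≠ j) : fac n i j = (n : ℝ) / |(i : ℝ) - j| := by
  unfold fac
  rw [max_eq_right (one_le_abs h)]

/-- one sample, general position -/
lemma sample {t t' s0 s1 : ℕ} (ht : t < n) (ht' : t' < n) (h0 : s0 < n) (h1 : s1 < n)
    (hts : t ≠ s0) {y : ℤ}
    (hy : y = round (((t' : ℝ) - s0) * ((t : ℝ) - s1) / ((t : ℝ) - s0)))
    {A1 D1 A3 D3 : ℝ} {P Q : ℤ} (hD3 : 0 ≤ D3) (hD3' : D3 ≤ 1)
    (he : |(A1 + s0 * D1) - (A3 + s0 * D3)| ≤ 1)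
    (hP : ⌊A1 + t * D1⌋ = P) (hQ : ⌊A3 + t' * D3⌋ = Q) :
    ∃ ρ η : ℝ, |ρ| ≤ fac n t s0 ∧ |η| ≤ 1 / 2 ∧ (s1 : ℝ) + y = ρ * t + (1 - ρ) * t' + η ∧
      |(A1 + s1 * D1 + y * D3) - (ρ * P + (1 - ρ) * Q)| ≤ 3 * |ρ| + 5 / 2 := by
  have hr : (t : ℝ) - s0 ≠ 0 := by
    have := one_le_abs hts
    intro h
    rw [h, abs_zero] at this
    linarith
  refine ⟨((s1 : ℝ) - s0) / ((t : ℝ) - s0),
    y - ((t' : ℝ) - s0) * ((t : ℝ) - s1) / ((t : ℝ) - s0), ?_, ?_, ?_, ?_⟩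
  · rw [fac_ne hts, abs_div]
    exact div_le_div_of_nonneg_right (abs_lt_n h1 h0) (abs_nonneg _)
  · rw [hy, abs_sub_comm]
    exact abs_sub_round _
  · field_simp
    ring
  · set ρ := ((s1 : ℝ) - s0) / ((t : ℝ) - s0) with hρ
    have hη : |(y : ℝ) - ((t' : ℝ) - s0) * ((t : ℝ) - s1) / ((t : ℝ) - s0)| ≤ 1 / 2 := by
      rw [hy, abs_sub_comm]
      exact abs_sub_round _
    set η := (y : ℝ) - ((t' : ℝ) - s0) * ((t : ℝ) - s1) / ((t : ℝ) - s0) with hηd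
    have e1 : (s1 : ℝ) = s0 + ρ * (t - s0) := by
      rw [hρ]
      field_simp
      ring
    have e2 : (y : ℝ) = η + (1 - ρ) * (t' - s0) := by
      rw [hηd, hρ]
      field_simp
      ring
    have e3 : (A1 + s1 * D1 + y * D3) - (ρ * P + (1 - ρ) * Q) =
        ρ * ((A1 + t * D1) - P) + (1 - ρ) * ((A3 + t' * D3) - Q) +
        (1 - ρ) * ((A1 + s0 * D1) - (A3 + s0 * D3)) + η * D3 := by
      rw [e1, e2]
      ring
    have f1 : |(A1 + t * D1) - P| ≤ 1 := by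
      have h1 := Int.floor_le (A1 + t * D1)
      have h2 := Int.lt_floor_add_one (A1 + t * D1)
      rw [hP] at h1 h2
      rw [abs_le]
      constructor <;> linarith
    have f2 : |(A3 + t' * D3) - Q| ≤ 1 := by
      have h1 := Int.floor_le (A3 + t' * D3)
      have h2 := Int.lt_floor_add_one (A3 + t' * D3)
      rw [hQ] at h1 h2
      rw [abs_le]
      constructor <;> linarith
    have g1 : |ρ * ((A1 + t * D1) - P)| ≤ |ρ| := by
      rw [abs_mul]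
      exact mul_le_of_le_one_right (abs_nonneg _) f1
    have g2 : |(1 - ρ) * ((A3 + t' * D3) - Q)| ≤ |1 - ρ| := by
      rw [abs_mul]
      exact mul_le_of_le_one_right (abs_nonneg _) f2
    have g3 : |(1 - ρ) * ((A1 + s0 * D1) - (A3 + s0 * D3))| ≤ |1 - ρ| := by
      rw [abs_mul]
      exact mul_le_of_le_one_right (abs_nonneg _) he
    have g4 : |η * D3| ≤ 1 / 2 := by
      rw [abs_mul, abs_of_nonneg hD3]
      exact (mul_le_of_le_one_right (abs_nonneg _) hD3').trans hη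
    have g5 : |1 - ρ| ≤ 1 + |ρ| := by
      have := abs_sub 1 ρ
      rwa [abs_one] at this
    rw [e3]
    refine (abs_add_le _ _).trans ?_
    have k1 := abs_add_le (ρ * ((A1 + t * D1) - P) + (1 - ρ) * ((A3 + t' * D3) - Q))
      ((1 - ρ) * ((A1 + s0 * D1) - (A3 + s0 * D3)))
    have k2 := abs_add_le (ρ * ((A1 + t * D1) - P)) ((1 - ρ) * ((A3 + t' * D3) - Q))
    linarith

/-- the crude bound, all positions -/
lemma crude {t t' s0 s1 : ℕ} (ht : t < n) (ht' : t' < n) (h0 : s0 < n) (h1 : s1 < n)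
    {y : ℤ}
    (hy : y = round (((t' : ℝ) - s0) * ((t : ℝ) - s1) / ((t : ℝ) - s0)))
    {A1 D1 D3 : ℝ} {P : ℤ} (hD1 : 0 ≤ D1) (hD1' : D1 ≤ 1) (hD3 : 0 ≤ D3) (hD3' : D3 ≤ 1)
    (hP : ⌊A1 + t * D1⌋ = P) :
    |((⌊A1 + s1 * D1 + y * D3⌋ : ℤ) : ℝ) - P| ≤ 5 * (n * fac n t s0) := by
  have hV := fac_one_le ht h0
  have hn := one_le_n ht
  have hys : |((t' : ℝ) - s0) * ((t : ℝ) - s1) / ((t : ℝ) - s0)| ≤ n * fac n t s0 := by
    by_cases hts : t = s0
    · rw [hts, sub_self, div_zero, abs_zero]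
      have : 0 ≤ fac n s0 s0 := by rw [fac_self]; linarith
      positivity
    · rw [fac_ne hts, abs_div, abs_mul, ← mul_div_assoc]
      refine div_le_div_of_nonneg_right ?_ (abs_nonneg _)
      exact mul_le_mul (abs_lt_n ht' h0) (abs_lt_n ht h1) (abs_nonneg _) (Nat.cast_nonneg _)
  have hya : |(y : ℝ)| ≤ n * fac n t s0 + 1 / 2 := by
    have h2 : |(y : ℝ) - ((t' : ℝ) - s0) * ((t : ℝ) - s1) / ((t : ℝ) - s0)| ≤ 1 / 2 := by
      rw [hy, abs_sub_comm]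
      exact abs_sub_round _
    have h3 := abs_add_le ((y : ℝ) - ((t' : ℝ) - s0) * ((t : ℝ) - s1) / ((t : ℝ) - s0))
      (((t' : ℝ) - s0) * ((t : ℝ) - s1) / ((t : ℝ) - s0))
    rw [sub_add_cancel] at h3
    linarith
  have a1 := Int.floor_le (A1 + t * D1)
  have a2 := Int.lt_floor_add_one (A1 + t * D1)
  rw [hP] at a1 a2
  have a3 := Int.floor_le (A1 + s1 * D1 + y * D3)
  have a4 := Int.lt_floor_add_one (A1 + s1 * D1 + y * D3)
  have b1 : |((s1 : ℝ) - t) * D1| ≤ n := by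
    rw [abs_mul, abs_of_nonneg hD1]
    exact (mul_le_of_le_one_right (abs_nonneg _) hD1').trans (abs_lt_n h1 ht)
  have b2 : |(y : ℝ) * D3| ≤ n * fac n t s0 + 1 / 2 := by
    rw [abs_mul, abs_of_nonneg hD3]
    exact (mul_le_of_le_one_right (abs_nonneg _) hD3').trans hya
  have c1 : (n : ℝ) ≤ n * fac n t s0 := le_mul_of_one_le_right (Nat.cast_nonneg _) hV
  rw [abs_le] at b1 b2
  have e : A1 + s1 * D1 + y * D3 = (A1 + t * D1) + ((s1 : ℝ) - t) * D1 + y * D3 := by ring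
  rw [e] at a3 a4 ⊢
  rw [abs_le]
  constructor <;> linarith

/-- the cells `P` and `Q` are close -/
lemma pq {t t' s0 : ℕ} (ht : t < n) (ht' : t' < n) (h0 : s0 < n)
    {A1 D1 A3 D3 : ℝ} {P Q : ℤ} (hD1 : 0 ≤ D1) (hD1' : D1 ≤ 1) (hD3 : 0 ≤ D3) (hD3' : D3 ≤ 1)
    (he : |(A1 + s0 * D1) - (A3 + s0 * D3)| ≤ 1)
    (hP : ⌊A1 + t * D1⌋ = P) (hQ : ⌊A3 + t' * D3⌋ = Q) : |(P : ℝ) - Q| ≤ 4 * n := by
  have hn := one_le_n ht
  have a1 := Int.floor_le (A1 + t * D1)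
  have a2 := Int.lt_floor_add_one (A1 + t * D1)
  rw [hP] at a1 a2
  have a3 := Int.floor_le (A3 + t' * D3)
  have a4 := Int.lt_floor_add_one (A3 + t' * D3)
  rw [hQ] at a3 a4
  have b1 : |((t : ℝ) - s0) * D1| ≤ n := by
    rw [abs_mul, abs_of_nonneg hD1]
    exact (mul_le_of_le_one_right (abs_nonneg _) hD1').trans (abs_lt_n ht h0)
  have b2 : |((t' : ℝ) - s0) * D3| ≤ n := by
    rw [abs_mul, abs_of_nonneg hD3]
    exact (mul_le_of_le_one_right (abs_nonneg _) hD3').trans (abs_lt_n ht' h0)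
  rw [abs_le] at b1 b2 he ⊢
  have e1 : A1 + t * D1 = (A1 + s0 * D1) + ((t : ℝ) - s0) * D1 := by ring
  have e2 : A3 + t' * D3 = (A3 + s0 * D3) + ((t' : ℝ) - s0) * D3 := by ring
  rw [e1] at a1 a2
  rw [e2] at a3 a4
  constructor <;> linarith

/-- two samples -/
lemma two {t t' s0 s1 r0 r1 : ℕ} (ht : t < n) (ht' : t' < n) (h0 : s0 < n) (h1 : s1 < n)
    (k0 : r0 < n) (k1 : r1 < n) {y y' : ℤ}
    (hy : y = round (((t' : ℝ) - s0) * ((t : ℝ) - s1) / ((t : ℝ) - s0)))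
    (hy' : y' = round (((t' : ℝ) - r0) * ((t : ℝ) - r1) / ((t : ℝ) - r0)))
    (hz : (s1 : ℤ) + y = r1 + y')
    {A1 D1 A3 D3 B1 E1 B3 E3 : ℝ} {P Q : ℤ}
    (hD1 : 0 ≤ D1) (hD1' : D1 ≤ 1) (hD3 : 0 ≤ D3) (hD3' : D3 ≤ 1)
    (hE1 : 0 ≤ E1) (hE1' : E1 ≤ 1) (hE3 : 0 ≤ E3) (hE3' : E3 ≤ 1)
    (he : |(A1 + s0 * D1) - (A3 + s0 * D3)| ≤ 1)
    (hf : |(B1 + r0 * E1) - (B3 + r0 * E3)| ≤ 1)
    (hP : ⌊A1 + t * D1⌋ = P) (hQ : ⌊A3 + t' * D3⌋ = Q)
    (kP : ⌊B1 + t * E1⌋ = P) (kQ : ⌊B3 + t' * E3⌋ = Q) :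
    |((⌊A1 + s1 * D1 + y * D3⌋ : ℤ) : ℝ) - (⌊B1 + r1 * E1 + y' * E3⌋ : ℤ)| ≤
      20 * (fac n t t' * fac n t s0) ^ 2 + 20 * (fac n t t' * fac n t r0) ^ 2 := by
  have hU := fac_one_le ht ht'
  have hV := fac_one_le ht h0
  have hW := fac_one_le ht k0
  have hn := one_le_n ht
  set U := fac n t t' with hUd
  set V := fac n t s0 with hVd
  set W := fac n t r0 with hWd
  have hUV : 1 ≤ U * V := one_le_mul_of_one_le_of_one_le hU hV
  have hUW : 1 ≤ U * W := one_le_mul_of_one_le_of_one_le hU hW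
  have hUV2 : U * V ≤ (U * V) ^ 2 := by nlinarith
  have hUW2 : U * W ≤ (U * W) ^ 2 := by nlinarith
  have hVU : V ≤ U * V := le_mul_of_one_le_left (by linarith) hU
  have hWU : W ≤ U * W := le_mul_of_one_le_left (by linarith) hU
  have hUU : U ≤ U * V := le_mul_of_one_le_right (by linarith) hV
  by_cases hdeg : t = t' ∨ t = s0 ∨ t = r0
  · -- degenerate
    have d1 := crude ht ht' h0 h1 hy hD1 hD1' hD3 hD3' hP
    have d2 := crude ht ht' k0 k1 hy' hE1 hE1' hE3 hE3' kP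
    have hn2 : (n : ℝ) ^ 2 ≤ U ^ 2 + V ^ 2 + W ^ 2 := by
      rcases hdeg with h | h | h
      · have : U = n := by rw [hUd, h, fac_self]
        rw [← this]
        nlinarith
      · have : V = n := by rw [hVd, h, fac_self]
        rw [← this]
        nlinarith
      · have : W = n := by rw [hWd, h, fac_self]
        rw [← this]
        nlinarith
    have h3 := abs_sub_le ((⌊A1 + s1 * D1 + y * D3⌋ : ℤ) : ℝ) P
      ((⌊B1 + r1 * E1 + y' * E3⌋ : ℤ) : ℝ)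
    rw [abs_sub_comm (P : ℝ)] at h3
    rw [← hVd] at d1
    rw [← hWd] at d2
    have q1 : V ^ 2 ≤ (U * V) ^ 2 := by
      apply pow_le_pow_left₀ (by linarith) hVU
    have q2 : W ^ 2 ≤ (U * W) ^ 2 := by
      apply pow_le_pow_left₀ (by linarith) hWU
    have q3 : U ^ 2 ≤ (U * V) ^ 2 := by
      apply pow_le_pow_left₀ (by linarith) hUU
    nlinarith [sq_nonneg ((n : ℝ) - V), sq_nonneg ((n : ℝ) - W)]
  · rw [not_or, not_or] at hdeg
    obtain ⟨g1, g2, g3⟩ := hdeg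
    obtain ⟨ρ, η, u1, u2, u3, u4⟩ := sample ht ht' h0 h1 g2 hy hD3 hD3' he hP hQ
    obtain ⟨ρ', η', v1, v2, v3, v4⟩ := sample ht ht' k0 k1 g3 hy' hE3 hE3' hf kP kQ
    have hpq := pq ht ht' h0 hD1 hD1' hD3 hD3' he hP hQ
    have hpos : 0 < |(t : ℝ) - t'| := lt_of_lt_of_le one_pos (one_le_abs g1)
    have hzr : (s1 : ℝ) + y = r1 + y' := by exact_mod_cast hz
    have w1 : (ρ - ρ') * ((t : ℝ) - t') = η' - η := by
      have : ρ * t + (1 - ρ) * t' + η = ρ' * t + (1 - ρ') * t' + η' := by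
        rw [← u3, ← v3, hzr]
      linear_combination this
    have w2 : |ρ - ρ'| * |(t : ℝ) - t'| ≤ 1 := by
      rw [← abs_mul, w1]
      rw [abs_le] at u2 v2 ⊢
      constructor <;> linarith
    have w3 : |(ρ - ρ') * ((P : ℝ) - Q)| ≤ 4 * U := by
      rw [abs_mul]
      have : |ρ - ρ'| ≤ 1 / |(t : ℝ) - t'| := by
        rw [le_div_iff₀ hpos]
        exact w2
      calc |ρ - ρ'| * |(P : ℝ) - Q| ≤ (1 / |(t : ℝ) - t'|) * (4 * n) :=
            mul_le_mul this hpq (abs_nonneg _) (by positivity)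
        _ = 4 * U := by
            rw [hUd, fac_ne g1]
            ring
    rw [← hVd] at u1
    rw [← hWd] at v1
    have a1 := Int.floor_le (A1 + s1 * D1 + y * D3)
    have a2 := Int.lt_floor_add_one (A1 + s1 * D1 + y * D3)
    have a3 := Int.floor_le (B1 + r1 * E1 + y' * E3)
    have a4 := Int.lt_floor_add_one (B1 + r1 * E1 + y' * E3)
    have e : (ρ * P + (1 - ρ) * Q) - (ρ' * P + (1 - ρ') * Q) = (ρ - ρ') * ((P : ℝ) - Q) := by
      ring
    rw [abs_le] at u4 v4 w3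
    rw [← e] at w3
    have m : |((⌊A1 + s1 * D1 + y * D3⌋ : ℤ) : ℝ) - (⌊B1 + r1 * E1 + y' * E3⌋ : ℤ)| ≤
        4 * U + (3 * V + 3 * W + 6) := by
      rw [abs_le]
      constructor <;> linarith
    refine m.trans ?_
    linarith

end

/-- an iterated logarithm is small -/
lemma absorb (C ε : ℝ) (hC : 0 ≤ C) (hε : 0 < ε) : ∃ C' : ℝ, 0 ≤ C' ∧ ∀ n : ℕ, 1 ≤ n →
    C * (1 + Real.log (1 + Real.log n)) ≤ ε * Real.log n + C' := by
  have hδ : 0 < ε / (C + 1) := by positivity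
  refine ⟨C + ε + C * |Real.log (ε / (C + 1))|, by positivity, fun n hn => ?_⟩
  have hn' : (1 : ℝ) ≤ n := by exact_mod_cast hn
  have hL : 0 ≤ Real.log n := Real.log_nonneg hn'
  have h1 := Real.log_le_sub_one_of_pos (mul_pos hδ (by linarith : 0 < 1 + Real.log n))
  rw [Real.log_mul hδ.ne' (by linarith)] at h1
  have h2 : C * (ε / (C + 1)) ≤ ε := by
    rw [← mul_div_assoc, div_le_iff₀ (by linarith)]
    nlinarith
  have h3 := neg_abs_le (Real.log (ε / (C + 1)))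
  have h4 : Real.log (1 + Real.log n) ≤ ε / (C + 1) * (1 + Real.log n) +
    |Real.log (ε / (C + 1))| := by linarith
  have h5 := mul_le_mul_of_nonneg_left h4 hC
  have h6 : C * (ε / (C + 1) * (1 + Real.log n)) ≤ ε * (1 + Real.log n) := by
    rw [← mul_assoc]
    exact mul_le_mul_of_nonneg_right h2 (by linarith)
  nlinarith

end Pool.Agent.Y657.HK3
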