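import Pool.Agent.Y254.HK.Stm
import Pool.Agent.W46.HD.Tools
import Pool.Agent.Y657.HK3.Core

/-!
# The point `Z` from the cells of `l1(t)`, `l3(t')` and the three heights
-/

set_option autoImplicit false

open Finset
open scoped Classical

namespace Pool.Agent.Y657.HK3

open Pool.Agent.W904.AK Pool.Agent.W46.HD Pool.Agent.W46.HM Pool.Agent.Y244.HM
  Pool.Agent.W597.HD Pool.Agent.Y254HK

lemma psi_fac (n i j : ℕ) : psi n i j = Real.log (fac n i j) := rfl

lemma pz_fac {n i j : ℕ} (hi : i < n) (hj : j < n) :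
    pz n (i : ℤ) (j : ℤ) = Real.log (fac n i j) := by
  unfold pz
  rw [Int.cast_natCast, Int.cast_natCast, max_eq_right]
  · rfl
  · exact fac_one_le hi hj

theorem t_f3 (hBOX : S_BOX) : S_F3 := by
  intro d ε hε
  obtain ⟨C, hC, h⟩ := hBOX d 4 (by norm_num)
  obtain ⟨C1, hC1, h1⟩ := absorb C ε hC hε
  refine ⟨C1 + d * 4, by positivity, ?_⟩
  intro n Ω _ A D hfam p S hp Θ iΘ q l1 l2 l3 s0 s1 t t' τ v hc
  have hq := hc.law
  have hn := hfam.pos
  have hn' : (1 : ℝ) ≤ n := by exact_mod_cast hn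
  have hL : 0 ≤ Real.log n := Real.log_nonneg hn'
  unfold F3
  -- the radius
  obtain ⟨R, hR⟩ : ∃ R : Θ → ℝ, R = fun z =>
    20 * (fac n (t z : ℕ) (t' z : ℕ) * fac n (t z : ℕ) (s0 z : ℕ)) ^ 2 := ⟨_, rfl⟩
  have hU : ∀ z, 1 ≤ fac n (t z : ℕ) (t' z : ℕ) := fun z => fac_one_le (t z).2 (t' z).2
  have hV : ∀ z, 1 ≤ fac n (t z : ℕ) (s0 z : ℕ) := fun z => fac_one_le (t z).2 (s0 z).2
  have hlog : ∀ z, Real.log (R z) = Real.log 20 + 2 * (pz n ((t z : ℕ) : ℤ) ((t' z : ℕ) : ℤ) +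
      psi n (t z) (s0 z)) := by
    intro z
    have h1 := hU z
    have h2 := hV z
    rw [hR, pz_fac (t z).2 (t' z).2, psi_fac]
    simp only
    rw [Real.log_mul (by norm_num) (by positivity), Real.log_pow,
      Real.log_mul (by positivity) (by positivity)]
    norm_num
  have h20 : Real.log 20 ≤ 4 := by
    have h1 : Real.log 20 ≤ Real.log (2 ^ 5) := Real.log_le_log (by norm_num) (by norm_num)
    rw [Real.log_pow] at h1
    have := Real.log_two_lt_d9
    push_cast at h1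
    linarith
  have hXX : H q (fun z => ((t z, t' z, cell A D (t z) (l1 z), cell A D (t' z) (l3 z),
      (XX A D l1 l3 s0 s1 t t' z).1), XX A D l1 l3 s0 s1 t t' z)) ≤
      H q (fun z => ((t z, t' z, cell A D (t z) (l1 z), cell A D (t' z) (l3 z),
      (XX A D l1 l3 s0 s1 t t' z).1), (XX A D l1 l3 s0 s1 t t' z).2)) := by
    refine H_mono hq ?_
    intro x y _ _ hxy
    simp only [Prod.mk.injEq] at hxy ⊢
    obtain ⟨⟨a1, a2, a3, a4, a5⟩, a6⟩ := hxy
    exact ⟨⟨a1, a2, a3, a4, a5⟩, Prod.ext a5 a6⟩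
  have key := h Θ _ q (fun z => (t z, t' z, cell A D (t z) (l1 z), cell A D (t' z) (l3 z),
      (XX A D l1 l3 s0 s1 t t' z).1)) (fun z => (XX A D l1 l3 s0 s1 t t' z).2) R n hn hq
    (by
      intro z _
      refine ⟨?_, ?_⟩
      · rw [hR]
        simp only
        have h3 : 1 ≤ (fac n (t z : ℕ) (t' z : ℕ) * fac n (t z : ℕ) (s0 z : ℕ)) ^ 2 :=
          one_le_pow₀ (one_le_mul_of_one_le_of_one_le (hU z) (hV z))
        linarith
      · rw [hlog, pz_fac (t z).2 (t' z).2, psi_fac]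
        have h4 : Real.log (fac n (t z : ℕ) (t' z : ℕ)) ≤ Real.log n :=
          Real.log_le_log (by linarith [hU z]) (fac_le _ _)
        have h5 : Real.log (fac n (t z : ℕ) (s0 z : ℕ)) ≤ Real.log n :=
          Real.log_le_log (by linarith [hV z]) (fac_le _ _)
        linarith)
    (by
      intro x y hx hy hxy i
      simp only [Prod.mk.injEq] at hxy
      obtain ⟨a1, a2, a3, a4, a5⟩ := hxy
      have e0 : |(A (l1 x) i + ((s0 x : ℕ) : ℝ) * D (l1 x) i) -
          (A (l3 x) i + ((s0 x : ℕ) : ℝ) * D (l3 x) i)| ≤ 1 :=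
        same_floor (by simpa only [cell] using congrFun (hc.i0 x hx) i)
      have e1 : |(A (l1 y) i + ((s0 y : ℕ) : ℝ) * D (l1 y) i) -
          (A (l3 y) i + ((s0 y : ℕ) : ℝ) * D (l3 y) i)| ≤ 1 :=
        same_floor (by simpa only [cell] using congrFun (hc.i0 y hy) i)
      have b3 := congrFun a3 i
      have b4 := congrFun a4 i
      rw [← a1] at b3
      rw [← a2] at b4
      simp only [cell] at b3 b4
      have hz : (((s1 x : ℕ) : ℤ)) + YY s0 s1 t t' x = ((s1 y : ℕ) : ℤ) + YY s0 s1 t t' y := a5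
      have hYx : YY s0 s1 t t' x = round ((((t' x : ℕ) : ℝ) - (s0 x : ℕ)) *
          (((t x : ℕ) : ℝ) - (s1 x : ℕ)) / (((t x : ℕ) : ℝ) - (s0 x : ℕ))) := rfl
      have hYy : YY s0 s1 t t' y = round ((((t' x : ℕ) : ℝ) - (s0 y : ℕ)) *
          (((t x : ℕ) : ℝ) - (s1 y : ℕ)) / (((t x : ℕ) : ℝ) - (s0 y : ℕ))) := by
        rw [a1, a2]; rfl
      have hfin := two (t x).2 (t' x).2 (s0 x).2 (s1 x).2 (s0 y).2 (s1 y).2 hYx hYy hz
        (hfam.lo (l1 x) i) (hfam.hi (l1 x) i) (hfam.lo (l3 x) i) (hfam.hi (l3 x) i)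
        (hfam.lo (l1 y) i) (hfam.hi (l1 y) i) (hfam.lo (l3 y) i) (hfam.hi (l3 y) i)
        e0 e1 rfl rfl b3.symm b4.symm
      rw [hR]
      simp only
      rw [← a1, ← a2]
      exact hfin)
  have hsum : ∑ z, q z * Real.log (R z) ≤ 4 + 4 * S := by
    have h2 : ∑ z, q z * Real.log (R z) = EE q (fun z => Real.log 20 +
        2 * (pz n ((t z : ℕ) : ℤ) ((t' z : ℕ) : ℤ) + psi n (t z) (s0 z))) :=
      Finset.sum_congr rfl fun z _ => by rw [hlog]
    rw [h2, EE_add (fun _ => Real.log 20) (fun z => 2 * (pz n ((t z : ℕ) : ℤ) ((t' z : ℕ) : ℤ) +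
      psi n (t z) (s0 z))), EE_const hq, EE_mul,
      EE_add (fun z => pz n ((t z : ℕ) : ℤ) ((t' z : ℕ) : ℤ)) (fun z => psi n (t z) (s0 z))]
    have h3 : EE q (fun z => pz n ((t z : ℕ) : ℤ) ((t' z : ℕ) : ℤ)) ≤ S := hc.tt'
    have h4 : EE q (fun z => psi n (t z) (s0 z)) ≤ sep p := hc.c2
    have h5 := hc.sep_le
    linarith
  have hS : 0 ≤ S := by
    refine le_trans ?_ hc.tt'
    refine Finset.sum_nonneg fun z _ => mul_nonneg (hq.nonneg z) ?_
    exact Real.log_nonneg (le_max_left _ _)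
  have hd : (0 : ℝ) ≤ d := Nat.cast_nonneg d
  have h6 := mul_le_mul_of_nonneg_left hsum hd
  have h7 := h1 n hn
  have h8 : 0 ≤ C1 * S := mul_nonneg hC1 hS
  refine hXX.trans (key.trans ?_)
  nlinarith

end Pool.Agent.Y657.HK3
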